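import Mathlib
import Pool.Agent.H14.KnApp

set_option autoImplicit false

namespace Pool.Agent.Results.MP_25b479_co.Exact

open Finset Pointwise Pool.Agent.H14.Kneser Pool.Agent.H14.KnApp

/-- zero-3-sum-free over `ℤ`. -/
def Free {G : Type} [AddCommGroup G] (A : Finset G) : Prop :=
  ∀ a ∈ A, ∀ b ∈ A, ∀ c ∈ A, a + b + c ≠ 0 ∧ a + b ≠ c

open Classical in
noncomputable def v (n : ℕ) : ℕ :=
  if h : ∃ p, p.Prime ∧ p ∣ n ∧ p % 3 = 2 then (Nat.find h + 1) * (n / Nat.find h) / 3
  else (n - 1) / 3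

theorem lower {n : ℕ} [NeZero n] (d : ℕ) (h : d ∣ n) : ∃ A : Finset (ZMod n), Free A ∧
    A.card = ((2 * d + 2) / 3 - (d / 3 + 1)) * (n / d) := by
  have hd : NeZero d := ⟨fun e => NeZero.ne n (by subst e; simpa using h)⟩
  have hd0 := NeZero.pos d
  refine ⟨_, ?_, (card_pre h _).trans (by rw [card_Ico_cast (d / 3 + 1) ((2 * d + 2) / 3)
    (by omega)])⟩
  intro a ha b hb c hc
  simp only [mem_filter, mem_univ, true_and] at ha hb hc
  constructor
  · intro e
    have := congrArg (ZMod.castHom h (ZMod d)) e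
    rw [map_add, map_add, map_zero] at this
    generalize ZMod.castHom h (ZMod d) a = x at *
    generalize ZMod.castHom h (ZMod d) b = y at *
    generalize ZMod.castHom h (ZMod d) c = z at *
    have h2 : d ∣ x.val + y.val + z.val := by
      rw [← ZMod.natCast_eq_zero_iff]; simpa using this
    have h3 := Nat.eq_zero_of_dvd_of_lt ((Nat.dvd_sub_iff_left (by omega) dvd_rfl).2 h2 :
      d ∣ x.val + y.val + z.val - d) (by omega)
    omega
  · intro e
    have := congrArg (ZMod.castHom h (ZMod d)) e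
    rw [map_add] at this
    generalize ZMod.castHom h (ZMod d) a = x at *
    generalize ZMod.castHom h (ZMod d) b = y at *
    generalize ZMod.castHom h (ZMod d) c = z at *
    have h2 : d ∣ x.val + y.val - z.val := by
      rw [← ZMod.natCast_eq_zero_iff, Nat.cast_sub (by omega)]; simp [this]
    have h3 := Nat.eq_zero_of_dvd_of_lt h2 (by omega)
    omega

theorem upper {n : ℕ} [NeZero n] (A : Finset (ZMod n)) (hA : Free A) (hne : A.Nonempty) :
    (∃ d m, n = d * m ∧ d % 3 = 2 ∧ 3 * A.card ≤ n + m) ∨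
      (3 * A.card ≤ n ∧ (Odd n → 3 * A.card < n)) := by
  set B := A ∪ -A with hB
  have hsf : ∀ x ∈ B, ∀ y ∈ B, x + y ∉ B := by
    intro x hx y hy hz
    simp only [hB, mem_union, mem_neg'] at hx hy hz
    rcases hx with hx | hx <;> rcases hy with hy | hy <;> rcases hz with hz | hz
    · exact (hA _ hx _ hy _ hz).2 rfl
    · exact (hA _ hx _ hy _ hz).1 (by abel)
    · exact (hA _ hz _ hy _ hx).2 (by abel)
    · exact (hA _ hx _ hz _ hy).2 (by abel)
    · exact (hA _ hz _ hx _ hy).2 (by abel)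
    · exact (hA _ hy _ hz _ hx).2 (by abel)
    · exact (hA _ hx _ hy _ hz).1 (by abel)
    · exact (hA _ hx _ hy _ hz).2 (by abel)
  have hBne : B.Nonempty := hne.mono subset_union_left
  have hk := kneser B B hBne hBne
  have hHs := stab_sub (B + B)
  have hper := per_stab (B + B)
  generalize stab (B + B) = H at *
  have hdis : Disjoint (B + B) (B + H) := by
    rw [disjoint_left]
    intro x h1 h2
    obtain ⟨b, hb, y, hy, rfl⟩ := mem_add.1 h2
    obtain ⟨u, hu, w, hw, e⟩ := mem_add.1 (hper _ h1 _ (hHs.2.2 _ hy))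
    exact hsf u hu w hw (by rw [e]; simpa using hb)
  have h1 := card_le_univ ((B + B) ∪ (B + H))
  rw [card_union_of_disjoint hdis, ZMod.card] at h1
  obtain ⟨d, hd⟩ := sub_dvd hHs
  obtain ⟨k, hk2⟩ := Per.dvd hHs _ (per_add B hHs)
  rw [ZMod.card] at hd
  have hm : 0 < H.card := card_pos.2 ⟨0, hHs.1⟩
  have hBH := card_le_card (sub_add B hHs)
  have hAB : A.card ≤ B.card := card_le_card subset_union_left
  have h2 : 3 * k ≤ d + 1 := by
    apply Nat.le_of_mul_le_mul_left _ hm
    nlinarith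
  by_cases h3 : 3 * k ≤ d
  · right
    have h4 := Nat.mul_le_mul_left H.card h3
    rw [mul_left_comm] at h4
    refine ⟨by omega, fun hn => ?_⟩
    have := even_symm hn B (fun h => hsf 0 h 0 h (by simpa using h)) (by
      intro x hx
      simp only [hB, mem_union, mem_neg', neg_neg] at hx ⊢
      tauto)
    rw [Nat.even_iff] at this
    rw [Nat.odd_iff] at hn
    omega
  · exact Or.inl ⟨d, H.card, hd.trans (mul_comm _ _), by omega, by omega⟩

/-- `τ_±(ℤ_n, 3) = v(n)`. -/
theorem result (n : ℕ) (hn : 1 ≤ n) :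
    IsGreatest {m : ℕ | ∃ A : Finset (ZMod n), Free A ∧ A.card = m} (v n) := by
  have : NeZero n := ⟨by omega⟩
  unfold v
  split_ifs with h
  · obtain ⟨h1, ⟨t, h2⟩, h3⟩ := Nat.find_spec h
    have hmin := fun q => Nat.find_min' h (m := q)
    generalize Nat.find h = p at *
    have ht : n / p = t := Nat.div_eq_of_eq_mul_right h1.pos h2
    obtain ⟨j, rfl⟩ : ∃ j, p = 3 * j + 2 := ⟨p / 3, by omega⟩
    rw [ht, show (3 * j + 2 + 1) * t = 3 * ((j + 1) * t) by ring,
      Nat.mul_div_cancel_left _ (by norm_num)]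
    constructor
    · obtain ⟨A, a1, a2⟩ := lower (n := n) _ ⟨t, h2⟩
      exact ⟨A, a1, by rw [a2, ht]; congr 1; omega⟩
    · rintro _ ⟨A, hA, rfl⟩
      rcases A.eq_empty_or_nonempty with rfl | hne
      · simp
      have e : n + t = 3 * ((j + 1) * t) := by rw [h2]; ring
      rcases upper A hA hne with ⟨d, m, a1, a2, a3⟩ | ⟨a1, -⟩
      · obtain ⟨q, b1, b2, b3⟩ := prime_fac 3 (Or.inl rfl) d a2
        have b4 := hmin q ⟨b1, b2.trans ⟨m, a1⟩, b3⟩
        have b5 := Nat.le_of_dvd (by omega) b2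
        have b6 : m ≤ t := by
          apply Nat.le_of_mul_le_mul_left _ h1.pos
          rw [← h2, a1]
          exact Nat.mul_le_mul_right _ (by omega)
        omega
      · omega
  · constructor
    · obtain ⟨A, a1, a2⟩ := lower (n := n) n dvd_rfl
      refine ⟨A, a1, ?_⟩
      have : n % 3 ≠ 2 := fun e => h (prime_fac 3 (Or.inl rfl) n e)
      rw [a2, Nat.div_self hn, mul_one]
      clear a2
      rcases (by omega : n % 3 = 0 ∨ n % 3 = 1) with h3 | h3 <;> omega
    · rintro _ ⟨A, hA, rfl⟩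
      rcases A.eq_empty_or_nonempty with rfl | hne
      · simp
      rcases upper A hA hne with ⟨d, m, a1, a2, a3⟩ | ⟨-, a1⟩
      · obtain ⟨q, b1, b2, b3⟩ := prime_fac 3 (Or.inl rfl) d a2
        exact absurd ⟨q, b1, b2.trans ⟨m, a1⟩, b3⟩ h
      · have := a1 (Nat.odd_iff.2 (by
          by_contra hc
          exact h ⟨2, Nat.prime_two, by omega, rfl⟩))
        omega

end Pool.Agent.Results.MP_25b479_co.Exact
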